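import Mathlib
import Pool.Agent.U180.NG.Stm2

/-!
Project NG, package LOWP2: almost surely the error in the Gauss circle problem for displaced lattice
points reaches `c (n log n)^(1/2)` in both directions, for every `c` below the sharp constant.
-/

set_option autoImplicit false

open MeasureTheory ProbabilityTheory Filter Topology

namespace Pool.Agent.U669.NG

open Pool.Agent.U180.NG

/-- the choice of the parameters -/
theorem params {w c : ℝ} (hw : 0 < w) (hc0 : 0 < c) (hc : c < 2 * Real.sqrt w) :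
    ∃ t : ℝ, 0 < t ∧ t < 1 / 10 ∧ c < (1 - t) * Real.sqrt (2 * (1 - 5 * t) * (2 * w * (1 - t))) := by
  have hcont : ContinuousAt (fun t : ℝ => (1 - t) * Real.sqrt (2 * (1 - 5 * t) *
      (2 * w * (1 - t)))) 0 := by
    apply Continuous.continuousAt
    fun_prop
  have h0 : c < (fun t : ℝ => (1 - t) * Real.sqrt (2 * (1 - 5 * t) * (2 * w * (1 - t)))) 0 := by
    have e : Real.sqrt (2 * 2 * w) = 2 * Real.sqrt w := by
      rw [show (2 : ℝ) * 2 * w = 2 ^ 2 * w by ring, Real.sqrt_mul (by norm_num),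
        Real.sqrt_sq (by norm_num)]
    simp only [mul_zero, sub_zero, one_mul, mul_one]
    rw [← mul_assoc, e]
    exact hc
  have h1 : ∀ᶠ t : ℝ in 𝓝 0, c < (1 - t) * Real.sqrt (2 * (1 - 5 * t) * (2 * w * (1 - t))) :=
    hcont.eventually (lt_mem_nhds h0)
  have h2 : ∀ᶠ t : ℝ in 𝓝[>] 0, c < (1 - t) * Real.sqrt (2 * (1 - 5 * t) * (2 * w * (1 - t))) :=
    h1.filter_mono nhdsWithin_le_nhds
  have h3 : ∀ᶠ t : ℝ in 𝓝[>] 0, t ∈ Set.Ioo (0 : ℝ) (1 / 10) := Ioo_mem_nhdsGT (by norm_num)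
  obtain ⟨t, h4, h5⟩ := (h2.and h3).exists
  exact ⟨t, h5.1, h5.2, h4⟩

/-- **Package LOWP2.** -/
theorem t_LOWP2 (h1 : S_FLUC2) (h2 : S_TL) (h3 : S_BCL2) : S_LOWP2 := by
  intro Ω _ P hP δ ρ μ ξ hξ c hc0 hc
  obtain ⟨C, r, S, hC, hr, hsp, f1, f2, f3, f4, f5, f6⟩ := h1 Ω P hP δ ρ μ ξ hξ
  obtain ⟨t, ht0, ht1, hct⟩ := params hsp hc0 hc
  set w : ℝ := spread (noiseLaw δ μ) with hw
  set b : ℝ := 1 - 5 * t with hb
  set V0 : ℝ := 2 * w * (1 - t) with hV0
  set s' : ℝ := (1 + 4 * t) * b with hs'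
  have hb0 : 0 < b := by rw [hb]; linarith
  have hV0p : 0 < V0 := mul_pos (by linarith) (by linarith)
  have hs'0 : 0 < s' := mul_pos (by linarith) hb0
  have hs'1 : s' < 1 := by rw [hs', hb]; nlinarith
  set c' : ℝ := (1 - t) * Real.sqrt (2 * b * V0) with hc'
  have hcc : 0 < c' - c := by linarith
  obtain ⟨x₀, η, hx₀, hη, htl⟩ := h2 t ht0 (by linarith)
  set s : ℕ := ⌈2 * r⌉₊ + 1 with hs
  have hs0 : 0 < s := by omega
  have hs2 : 2 * r < s := by
    rw [hs]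
    push_cast
    have := Nat.le_ceil (2 * r)
    linarith
  let nn : ℕ → ℕ := fun i => s * (i + 1)
  have hnn1 : ∀ i, (1 : ℝ) ≤ (nn i : ℝ) := by
    intro i
    have : 1 ≤ nn i := Nat.one_le_iff_ne_zero.2 (by positivity)
    exact_mod_cast this
  have htend : Tendsto nn atTop atTop := by
    refine tendsto_atTop_mono (fun i => ?_) tendsto_id
    show i ≤ s * (i + 1)
    nlinarith
  have htendR : Tendsto (fun i => (nn i : ℝ)) atTop atTop :=
    tendsto_natCast_atTop_atTop.comp htend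
  let V : ℕ → ℝ := fun i => ∑ z ∈ S (nn i), (∫ ω, ind ξ (nn i) z ω ∂P) *
    (1 - ∫ ω, ind ξ (nn i) z ω ∂P)
  let x : ℕ → ℝ := fun i => Real.sqrt (2 * b * Real.log (nn i))
  let a : ℕ → ℝ := fun i => (1 - t) * x i * Real.sqrt (V i)
  -- the eventual inequalities
  have E1 : ∀ᶠ R : ℝ in atTop, V0 * R ≤ ∑ z ∈ S R, (∫ ω, ind ξ R z ω ∂P) *
      (1 - ∫ ω, ind ξ R z ω ∂P) := by
    have hlt : V0 < 2 * w := by rw [hV0]; nlinarith
    filter_upwards [f3.eventually (lt_mem_nhds hlt), eventually_gt_atTop (0 : ℝ)] with R hR hR0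
    rw [lt_div_iff₀ hR0] at hR
    exact hR.le
  have E2 : ∀ᶠ R : ℝ in atTop, x₀ ^ 2 / (2 * b) ≤ Real.log R :=
    Real.tendsto_log_atTop.eventually_ge_atTop _
  have E3 : ∀ᶠ R : ℝ in atTop, 2 * b * Real.log R ≤ η ^ 2 * (V0 * R) := by
    have hk : 0 < η ^ 2 * V0 / (2 * b) := by positivity
    filter_upwards [Real.isLittleO_log_id_atTop.def hk, eventually_ge_atTop (1 : ℝ)] with R hR hR1
    have h0 : 0 ≤ Real.log R := Real.log_nonneg hR1
    rw [Real.norm_of_nonneg h0, id, Real.norm_of_nonneg (by linarith)] at hR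
    calc 2 * b * Real.log R ≤ 2 * b * (η ^ 2 * V0 / (2 * b) * R) := by gcongr
      _ = η ^ 2 * (V0 * R) := by field_simp
  have E4 : ∀ᶠ R : ℝ in atTop, (C / (c' - c)) ^ 2 ≤ Real.log R :=
    Real.tendsto_log_atTop.eventually_ge_atTop _
  have Eall : ∀ᶠ i : ℕ in atTop, V0 * (nn i : ℝ) ≤ V i ∧ x₀ ^ 2 / (2 * b) ≤ Real.log (nn i) ∧
      2 * b * Real.log (nn i) ≤ η ^ 2 * (V0 * (nn i)) ∧ (C / (c' - c)) ^ 2 ≤ Real.log (nn i) := by
    filter_upwards [htendR.eventually E1, htendR.eventually E2, htendR.eventually E3,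
      htendR.eventually E4] with i g1 g2 g3 g4
    exact ⟨g1, g2, g3, g4⟩
  obtain ⟨i0, hi0⟩ := eventually_atTop.1 (Eall.and (eventually_ge_atTop 1))
  have hlog0 : ∀ i, 0 ≤ Real.log (nn i) := fun i => Real.log_nonneg (hnn1 i)
  have hx2 : ∀ i, x i ^ 2 = 2 * b * Real.log (nn i) := fun i =>
    Real.sq_sqrt (mul_nonneg (by linarith) (hlog0 i))
  have hind : ∀ (R : ℝ) (z : ℤ × ℤ) (ω : Ω), ind ξ R z ω = 0 ∨ ind ξ R z ω = 1 := by
    intro R z ω
    unfold ind
    by_cases h : ξ z ω ∈ disc R z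
    · right
      rw [Set.indicator_of_mem h]
    · left
      rw [Set.indicator_of_notMem h]
  have hlow : ∀ i ≥ i0,
      Real.exp (-((1 + 4 * t) * (x i) ^ 2 / 2)) ≤ P.real {ω | a i ≤ ∑ z ∈ S (nn i),
        (ind ξ (nn i) z ω - ∫ ω, ind ξ (nn i) z ω ∂P)} ∧
      Real.exp (-((1 + 4 * t) * (x i) ^ 2 / 2)) ≤ P.real {ω | ∑ z ∈ S (nn i),
        (ind ξ (nn i) z ω - ∫ ω, ind ξ (nn i) z ω ∂P) ≤ -(a i)} := by
    intro i hi
    obtain ⟨⟨k1, k2, k3, k4⟩, k5⟩ := hi0 i hi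
    refine htl Ω (ℤ × ℤ) P hP (ind ξ (nn i)) (S (nn i)) (x i) (V i) (f4 _) (f5 _) (hind _) rfl ?_ ?_
    · refine Real.le_sqrt_of_sq_le ?_
      rw [div_le_iff₀ (by positivity)] at k2
      linarith
    · have e1 : η * Real.sqrt (V i) = Real.sqrt (η ^ 2 * V i) := by
        rw [Real.sqrt_mul (by positivity), Real.sqrt_sq hη.le]
      rw [e1]
      refine Real.sqrt_le_sqrt (k3.trans ?_)
      gcongr
  have hprob : ∀ i ≥ i0, (2 * (s : ℝ)) ^ (-s') * (i : ℝ) ^ (-s') ≤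
      Real.exp (-((1 + 4 * t) * (x i) ^ 2 / 2)) := by
    intro i hi
    obtain ⟨-, k5⟩ := hi0 i hi
    have hi1 : (1 : ℝ) ≤ i := by exact_mod_cast k5
    have hsR : (0 : ℝ) < s := by exact_mod_cast hs0
    have hn0 : (0 : ℝ) < nn i := by linarith [hnn1 i]
    have e1 : Real.exp (-((1 + 4 * t) * (x i) ^ 2 / 2)) = (nn i : ℝ) ^ (-s') := by
      rw [hx2, Real.rpow_def_of_pos hn0, hs']
      congr 1
      ring
    rw [e1, ← Real.mul_rpow (by positivity) (by positivity)]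
    refine Real.rpow_le_rpow_of_nonpos hn0 ?_ (by linarith)
    show ((s * (i + 1) : ℕ) : ℝ) ≤ 2 * s * i
    push_cast
    nlinarith
  have hbig : ∀ i ≥ i0, c * Real.sqrt ((nn i : ℝ) * Real.log (nn i)) + C * Real.sqrt (nn i) ≤
      a i := by
    intro i hi
    obtain ⟨⟨k1, k2, k3, k4⟩, k5⟩ := hi0 i hi
    have hn0 : (0 : ℝ) < nn i := by linarith [hnn1 i]
    have g1 : c' * Real.sqrt ((nn i : ℝ) * Real.log (nn i)) ≤ a i := by
      have e1 : c' * Real.sqrt ((nn i : ℝ) * Real.log (nn i)) =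
          (1 - t) * x i * Real.sqrt (V0 * (nn i)) := by
        have hA : Real.sqrt (2 * b * V0) * Real.sqrt ((nn i : ℝ) * Real.log (nn i)) =
            Real.sqrt (2 * b * V0 * ((nn i : ℝ) * Real.log (nn i))) :=
          (Real.sqrt_mul (by positivity) _).symm
        have hB : Real.sqrt (2 * b * Real.log (nn i)) * Real.sqrt (V0 * (nn i)) =
            Real.sqrt (2 * b * Real.log (nn i) * (V0 * (nn i))) :=
          (Real.sqrt_mul (mul_nonneg (by linarith) (hlog0 i)) _).symm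
        show _ = (1 - t) * Real.sqrt (2 * b * Real.log (nn i)) * Real.sqrt (V0 * (nn i))
        rw [hc', mul_assoc (1 - t), hA, mul_assoc (1 - t), hB]
        congr 2
        ring
      rw [e1]
      show (1 - t) * x i * Real.sqrt (V0 * (nn i)) ≤ (1 - t) * x i * Real.sqrt (V i)
      have : 0 ≤ (1 - t) * x i := mul_nonneg (by linarith) (Real.sqrt_nonneg _)
      exact mul_le_mul_of_nonneg_left (Real.sqrt_le_sqrt k1) this
    have g2 : C * Real.sqrt (nn i) ≤ (c' - c) * Real.sqrt ((nn i : ℝ) * Real.log (nn i)) := by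
      rw [Real.sqrt_mul hn0.le]
      have h4 : C / (c' - c) ≤ Real.sqrt (Real.log (nn i)) := Real.le_sqrt_of_sq_le k4
      rw [div_le_iff₀ hcc] at h4
      have h6 := mul_le_mul_of_nonneg_right h4 (Real.sqrt_nonneg (nn i : ℝ))
      calc C * Real.sqrt (nn i) ≤ Real.sqrt (Real.log (nn i)) * (c' - c) * Real.sqrt (nn i) := h6
        _ = _ := by ring
    linarith
  have hdisc : ∀ (R : ℝ) (z : ℤ × ℤ), MeasurableSet (disc R z) := by
    intro R z
    unfold disc
    exact measurableSet_le (by fun_prop) measurable_const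
  have hdisj : ∀ i j, i ≠ j → Disjoint (S (nn i)) (S (nn j)) := by
    intro i j hij
    rw [Finset.disjoint_left]
    intro z hz hz'
    have g1 := (f2 (nn i) (hnn1 i)).1 z hz
    have g2 := (f2 (nn j) (hnn1 j)).1 z hz'
    rw [abs_le] at g1 g2
    have g3 : ∀ i j : ℕ, i < j → (nn i : ℝ) + s ≤ nn j := by
      intro i j hij
      have : nn i + s ≤ nn j := by
        show s * (i + 1) + s ≤ s * (j + 1)
        nlinarith
      exact_mod_cast this
    rcases lt_or_gt_of_ne hij with h | h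
    · have := g3 i j h
      linarith
    · have := g3 j i h
      linarith
  have hsp0 : (0 : ℝ) < (2 * (s : ℝ)) ^ (-s') := by
    have hsR : (0 : ℝ) < s := by exact_mod_cast hs0
    positivity
  have b1 := h3 Ω P hP ξ hξ.meas hξ.indep (fun i => S (nn i))
    (fun i z x => (disc (nn i) z).indicator (fun _ => (1 : ℝ)) x - ∫ ω, ind ξ (nn i) z ω ∂P) a s'
    (fun i z => (measurable_const.indicator (hdisc _ _)).sub_const _) hdisj hs'0 hs'1
    ⟨(2 * (s : ℝ)) ^ (-s'), i0, hsp0, fun i hi => (hprob i hi).trans (hlow i hi).1⟩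
  have b2 := h3 Ω P hP ξ hξ.meas hξ.indep (fun i => S (nn i))
    (fun i z x => -((disc (nn i) z).indicator (fun _ => (1 : ℝ)) x - ∫ ω, ind ξ (nn i) z ω ∂P)) a s'
    (fun i z => ((measurable_const.indicator (hdisc _ _)).sub_const _).neg) hdisj hs'0 hs'1
    ⟨(2 * (s : ℝ)) ^ (-s'), i0, hsp0, fun i hi => by
      refine (hprob i hi).trans ((hlow i hi).2.trans (le_of_eq ?_))
      congr 1
      ext ω
      simp only [Set.mem_ofPred_eq, Finset.sum_neg_distrib]
      constructor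
      · intro h
        have : ∑ z ∈ S (nn i), ((disc (nn i) z).indicator (fun _ => (1 : ℝ)) (ξ z ω) -
          ∫ ω, ind ξ (nn i) z ω ∂P) ≤ -(a i) := h
        linarith
      · intro h
        show ∑ z ∈ S (nn i), ((disc (nn i) z).indicator (fun _ => (1 : ℝ)) (ξ z ω) -
          ∫ ω, ind ξ (nn i) z ω ∂P) ≤ -(a i)
        linarith⟩
  have hae : ∀ᵐ ω ∂P, ∀ i : ℕ, (count (fun z => ξ z ω) (nn i) : ℝ) -
      ∫ ω, (count (fun z => ξ z ω) (nn i) : ℝ) ∂P =
        ∑ z ∈ S (nn i), (ind ξ (nn i) z ω - ∫ ω, ind ξ (nn i) z ω ∂P) :=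
    ae_all_iff.2 fun i => (f2 (nn i) (hnn1 i)).2
  filter_upwards [b1, b2, hae] with ω w1 w2 w3
  constructor
  · have : ∃ᶠ i in atTop, c * Real.sqrt ((nn i : ℝ) * Real.log (nn i)) ≤
        (count (fun z => ξ z ω) (nn i) : ℝ) - Real.pi * (nn i : ℝ) ^ 2 := by
      refine (w1.and_eventually (eventually_ge_atTop i0)).mono ?_
      rintro i ⟨hi, hi'⟩
      have k1 := hbig i hi'
      have k2 := abs_le.1 (f1 (nn i) (hnn1 i))
      have k3 := w3 i
      have k4 : a i ≤ ∑ z ∈ S (nn i), (ind ξ (nn i) z ω - ∫ ω, ind ξ (nn i) z ω ∂P) := hi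
      rw [← k3] at k4
      linarith [k2.1]
    exact htend.frequently (p := fun n : ℕ => c * Real.sqrt ((n : ℝ) * Real.log n) ≤
        (count (fun z => ξ z ω) n : ℝ) - Real.pi * (n : ℝ) ^ 2) this
  · have : ∃ᶠ i in atTop, (count (fun z => ξ z ω) (nn i) : ℝ) - Real.pi * (nn i : ℝ) ^ 2 ≤
        -(c * Real.sqrt ((nn i : ℝ) * Real.log (nn i))) := by
      refine (w2.and_eventually (eventually_ge_atTop i0)).mono ?_
      rintro i ⟨hi, hi'⟩
      have k1 := hbig i hi'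
      have k2 := abs_le.1 (f1 (nn i) (hnn1 i))
      have k3 := w3 i
      rw [Finset.sum_neg_distrib] at hi
      have k4 : a i ≤ -(∑ z ∈ S (nn i), (ind ξ (nn i) z ω - ∫ ω, ind ξ (nn i) z ω ∂P)) := hi
      rw [← k3] at k4
      linarith [k2.2]
    exact htend.frequently (p := fun n : ℕ => (count (fun z => ξ z ω) n : ℝ) -
      Real.pi * (n : ℝ) ^ 2 ≤ -(c * Real.sqrt ((n : ℝ) * Real.log n))) this

end Pool.Agent.U669.NG
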